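import Pool.Agent.W586.SK.Stm2

/-!
# From second moments to the covariance, exchangeable densities
-/

set_option autoImplicit false

namespace Pool.Agent.W376.SX

open MeasureTheory Set
open scoped ENNReal InnerProductSpace
open Pool.Agent.H212R2.KLS (mu)
open Pool.Agent.W586.SK (E)
open Pool.Agent.W586.SX

/-- the mean vector -/
noncomputable def mean {n : ℕ} (μ : Measure (E n)) : E n :=
  WithLp.toLp 2 fun k => ∫ x, x k ∂μ

theorem lin_mean {n : ℕ} (μ : Measure (E n))
    (hint : ∀ k, Integrable (fun x : E n => x k) μ)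
    (L : E n →ₗ[ℝ] ℝ) : L (mean μ) = ∫ x, L x ∂μ := by
  classical
  have h1 : ∀ x : E n, L x = ∑ k, x k * L (EuclideanSpace.single k 1) := by
    intro x
    have h2 : x = ∑ k, x k • EuclideanSpace.single k (1 : ℝ) := by
      ext j
      simp [Finset.sum_apply, Pi.single_apply]
    conv_lhs => rw [h2]
    rw [map_sum]
    refine Finset.sum_congr rfl fun k _ => ?_
    rw [map_smul, smul_eq_mul]
  have h5 : ∫ x, L x ∂μ = ∫ x : E n,
      ∑ k, x k * L (EuclideanSpace.single k 1) ∂μ := by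
    congr 1
    funext x
    exact h1 x
  rw [h5, h1 (mean μ), integral_finsetSum _ fun k _ => (hint k).mul_const _]
  refine Finset.sum_congr rfl fun k _ => ?_
  rw [integral_mul_const]
  rfl

theorem map_shift {n : ℕ} (ρ : E n → ℝ) (hm : Measurable ρ) (a : E n) :
    (mu (fun x => ρ (x + a))).map (fun x => x + a) = mu ρ := by
  have hT : MeasurePreserving (fun x : E n => x + a) volume volume :=
    measurePreserving_add_right volume a
  ext s hs
  rw [Measure.map_apply (measurable_add_const a) hs]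
  unfold mu
  rw [withDensity_apply _ hs, withDensity_apply _ (measurable_add_const a hs)]
  exact hT.setLIntegral_comp_preimage hs (f := fun x => ENNReal.ofReal (ρ x))
    hm.ennreal_ofReal

theorem sw_eq {n : ℕ} (k l : Fin n) (x : E n) (j : Fin n) :
    sw k l x j = x (Equiv.swap k l j) := sw_apply k l x j

theorem map_sw {n : ℕ} (ρ : E n → ℝ) (hρ : Sx ρ) (k l : Fin n) :
    (mu ρ).map (sw k l) = mu ρ := by
  have hT : MeasurePreserving (sw k l : E n → E n) volume volume :=
    (sw k l).measurePreserving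
  have hmeas : Measurable (sw k l : E n → E n) := (sw k l).continuous.measurable
  ext s hs
  rw [Measure.map_apply hmeas hs]
  unfold mu
  rw [withDensity_apply _ hs, withDensity_apply _ (hmeas hs)]
  have h1 := hT.setLIntegral_comp_preimage hs (f := fun x => ENNReal.ofReal (ρ x))
    hρ.meas.ennreal_ofReal
  rw [← h1]
  refine lintegral_congr fun x => ?_
  have h2 : ρ (sw k l x) = ρ x := hρ.inv (Equiv.swap k l) x (sw k l x) (fun i => sw_apply k l x i)
  rw [h2]

theorem mean_eq {n : ℕ} (hn : 1 ≤ n) (ρ : E n → ℝ) (hρ : Sx ρ) :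
    ∃ c : ℝ, mean (mu ρ) = c • ee n := by
  have hall : ∀ k l : Fin n, ∫ x : E n, x k ∂(mu ρ) = ∫ x : E n, x l ∂(mu ρ) := by
    intro k l
    have hmeas : Measurable (sw k l : E n → E n) := (sw k l).continuous.measurable
    have h3 : ∫ y : E n, y k ∂((mu ρ).map (sw k l)) = ∫ x, (sw k l x) k ∂(mu ρ) := by
      refine integral_map hmeas.aemeasurable ?_
      have : Continuous (fun y : E n => y k) := by fun_prop
      exact this.aestronglyMeasurable
    rw [map_sw ρ hρ k l] at h3
    rw [h3]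
    congr 1
    funext x
    rw [sw_apply, Equiv.swap_apply_left]
  refine ⟨(∫ x : E n, x ⟨0, hn⟩ ∂(mu ρ)) * Real.sqrt n, ?_⟩
  have hs : Real.sqrt (n : ℝ) ≠ 0 := by
    have : (0 : ℝ) < n := by exact_mod_cast hn
    exact (Real.sqrt_pos.2 this).ne'
  ext j
  show ∫ x : E n, x j ∂(mu ρ) = ((∫ x : E n, x ⟨0, hn⟩ ∂(mu ρ)) * Real.sqrt n) * (1 / Real.sqrt n)
  rw [hall j ⟨0, hn⟩]
  field_simp

theorem cent (hbas : S_BAS) : S_CENT := by
  intro C hC H n ρ hn hρ h1 s hs hvar f hf
  classical
  have : IsProbabilityMeasure (mu ρ) := ⟨h1⟩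
  have hL2 : ∀ θ : E n, MemLp (fun x : E n => ⟪θ, x⟫_ℝ) 2 (mu ρ) := by
    intro θ
    have hmeas : AEStronglyMeasurable (fun x : E n => ⟪θ, x⟫_ℝ) (mu ρ) := by
      have : Continuous (fun x : E n => ⟪θ, x⟫_ℝ) := by fun_prop
      exact this.aestronglyMeasurable
    rw [← ProbabilityTheory.evariance_lt_top_iff_memLp hmeas]
    exact lt_of_le_of_lt (hvar θ) ENNReal.ofReal_lt_top
  have hint : ∀ k, Integrable (fun x : E n => x k) (mu ρ) := by
    intro k
    have h2 := (hL2 (EuclideanSpace.single k 1)).integrable (by norm_num)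
    refine h2.congr ?_
    filter_upwards with x
    rw [EuclideanSpace.inner_single_left]
    simp
  obtain ⟨c, hc⟩ := mean_eq hn ρ hρ
  set a := mean (mu ρ) with ha
  have hρ' : Sx (fun x => ρ (x + a)) := by
    rw [hc]
    exact (hbas ρ hρ).2.2.2.1 c
  have hmap := map_shift ρ hρ.meas a
  have hemb : MeasurableEmbedding (fun x : E n => x + a) := measurableEmbedding_addRight a
  have h1' : mu (fun x => ρ (x + a)) univ = 1 := by
    have h2 := congrArg (fun m : Measure (E n) => m univ) hmap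
    rw [Measure.map_apply (measurable_add_const a) MeasurableSet.univ, preimage_univ, h1] at h2
    exact h2
  have hI : ∀ g : E n → ℝ,
      ∫ x, g x ∂(mu ρ) = ∫ x, g (x + a) ∂(mu fun x => ρ (x + a)) := by
    intro g
    conv_lhs => rw [← hmap]
    exact hemb.integral_map g
  have hLI : ∀ g : E n → ℝ≥0∞,
      ∫⁻ x, g x ∂(mu ρ) = ∫⁻ x, g (x + a) ∂(mu fun x => ρ (x + a)) := by
    intro g
    conv_lhs => rw [← hmap]
    exact hemb.lintegral_map g
  have hvar' : ∀ θ : E n,
      ∫⁻ x, ENNReal.ofReal (⟪θ, x⟫_ℝ ^ 2) ∂(mu fun x => ρ (x + a)) ≤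
        ENNReal.ofReal (s * ‖θ‖ ^ 2) := by
    intro θ
    have h2 := hvar θ
    unfold ProbabilityTheory.evariance at h2
    rw [hLI] at h2
    refine le_trans (le_of_eq ?_) h2
    refine lintegral_congr fun x => ?_
    have h3 : ∫ x, ⟪θ, x⟫_ℝ ∂(mu ρ) = ⟪θ, a⟫_ℝ := by
      have h4 := lin_mean (mu ρ) hint (innerₛₗ ℝ θ)
      simp only [innerₛₗ_apply_apply] at h4
      exact h4.symm
    rw [h3]
    show ENNReal.ofReal (⟪θ, x⟫_ℝ ^ 2) = ‖⟪θ, x + a⟫_ℝ - ⟪θ, a⟫_ℝ‖ₑ ^ 2
    rw [inner_add_right, add_sub_cancel_right, ← ofReal_norm,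
      ← ENNReal.ofReal_pow (norm_nonneg _), Real.norm_eq_abs, sq_abs]
  have hg : ContDiff ℝ 1 (fun x => f (x + a)) := hf.comp (contDiff_id.add contDiff_const)
  have hfd : ∀ x, fderiv ℝ (fun x => f (x + a)) x = fderiv ℝ f (x + a) := fun x => by
    rw [fderiv_comp_add_right]
  have key := H (fun x => ρ (x + a)) hn hρ' h1' s hs hvar' (fun x => f (x + a)) hg
  have hev : ProbabilityTheory.evariance (fun x => f (x + a)) (mu fun x => ρ (x + a)) =
      ProbabilityTheory.evariance f (mu ρ) := by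
    unfold ProbabilityTheory.evariance
    rw [hLI, hI f]
  have hv : ProbabilityTheory.variance (fun x => f (x + a)) (mu fun x => ρ (x + a)) =
      ProbabilityTheory.variance f (mu ρ) := by
    unfold ProbabilityTheory.variance
    rw [hev]
  rw [hv] at key
  refine ⟨fun hL => ?_, fun hb => ?_⟩
  · obtain ⟨k1, k2⟩ := key.1 (fun x => by rw [hfd]; exact hL (x + a))
    refine ⟨?_, k2⟩
    rw [← hmap]
    exact (hemb.memLp_map_measure_iff).mpr k1
  · have k := key.2 (fun x => hb (x + a))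
    rw [hLI (fun x => ENNReal.ofReal (‖fderiv ℝ f x‖ ^ 2))]
    refine k.trans (le_of_eq ?_)
    congr 1
    refine lintegral_congr fun x => ?_
    rw [hfd]

end Pool.Agent.W376.SX
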